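import Pool.Agent.helper41.NU.A2
import Pool.Agent.helper31.NU.PDefs
import Pool.Agent.helper31.NU.PDefs2
import Pool.Agent.helper83.NU.P11

set_option autoImplicit false
set_option linter.all false

/-! Module P14: functions on `ℂP^n` as homogeneous functions. -/

open MeasureTheory Filter Topology Set
open scoped ContDiff Manifold Matrix ENNReal ComplexOrder

noncomputable section

namespace Pool.Agent.helper31.NU

open Pool.Agent.helper63.NU

variable {n : ℕ}

open Classical in
/-- the homogeneous function on `ℂ^{n+1}` of a function on `ℂP^n` -/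
def lft (u : CP n → ℝ) (z : E (n + 1)) : ℝ := if h : z = 0 then 0 else u (CP.mk z h)

theorem lft_mk (u : CP n → ℝ) (z : E (n + 1)) (hz : z ≠ 0) : lft u z = u (CP.mk z hz) := by
  unfold lft; rw [dif_neg hz]

namespace P14aux

/-! ### the affine embedding -/

/-- `v ↦ (v, 0 at i)` -/
def L (i : Fin (n + 1)) : E n →ₗ[ℝ] E (n + 1) where
  toFun v := i.insertNth 0 v
  map_add' v w := by
    funext a
    refine Fin.succAboveCases i ?_ (fun j => ?_) a <;> simp
  map_smul' c v := by
    funext a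
    refine Fin.succAboveCases i ?_ (fun j => ?_) a <;> simp

theorem L_single (i : Fin (n + 1)) (j : Fin n) (w : ℂ) :
    L i (Pi.single j w) = Pi.single (i.succAbove j) w := by
  show (i.insertNth 0 (Pi.single j w) : E (n + 1)) = _
  funext a
  refine Fin.succAboveCases i ?_ (fun l => ?_) a
  · rw [Fin.insertNth_apply_same, Pi.single_eq_of_ne (Fin.succAbove_ne i j).symm]
  · rw [Fin.insertNth_apply_succAbove]
    by_cases h : l = j
    · subst h; simp
    · rw [Pi.single_eq_of_ne h, Pi.single_eq_of_ne]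
      intro h'
      exact h (Fin.succAbove_right_injective h')

theorem ins_eq (i : Fin (n + 1)) (y : E n) :
    (i.insertNth 1 y : E (n + 1)) = L i y + Pi.single i 1 := by
  show _ = (i.insertNth 0 y : E (n + 1)) + _
  funext a
  refine Fin.succAboveCases i ?_ (fun l => ?_) a
  · simp
  · simp [Pi.single_eq_of_ne (Fin.succAbove_ne i l)]

theorem hasFDerivAt_ins (i : Fin (n + 1)) (y : E n) :
    HasFDerivAt (fun y : E n => (i.insertNth 1 y : E (n + 1))) (L i).toContinuousLinearMap y := by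
  have h : (fun y : E n => (i.insertNth 1 y : E (n + 1))) =
      fun y => (L i).toContinuousLinearMap y + Pi.single i 1 := by
    funext y
    exact ins_eq i y
  rw [h]
  exact (ContinuousLinearMap.hasFDerivAt _).add_const _

theorem fderiv_comp_ins {F : E (n + 1) → ℂ} (i : Fin (n + 1)) {y : E n}
    (hF : DifferentiableAt ℝ F (i.insertNth 1 y)) (v : E n) :
    fderiv ℝ (fun y : E n => F (i.insertNth 1 y)) y v = fderiv ℝ F (i.insertNth 1 y) (L i v) := by
  have h := hF.hasFDerivAt.comp y (hasFDerivAt_ins i y)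
  have h2 : HasFDerivAt (fun y : E n => F (i.insertNth 1 y)) _ y := h
  rw [h2.fderiv]
  rfl

theorem dz_ins {F : E (n + 1) → ℂ} (i : Fin (n + 1)) {y : E n}
    (hF : DifferentiableAt ℝ F (i.insertNth 1 y)) (j : Fin n) :
    dz j (fun y : E n => F (i.insertNth 1 y)) y = dz (i.succAbove j) F (i.insertNth 1 y) := by
  rw [dz, dz, fderiv_comp_ins i hF, fderiv_comp_ins i hF, L_single, L_single]

theorem db_ins {F : E (n + 1) → ℂ} (i : Fin (n + 1)) {y : E n}
    (hF : DifferentiableAt ℝ F (i.insertNth 1 y)) (j : Fin n) :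
    db j (fun y : E n => F (i.insertNth 1 y)) y = db (i.succAbove j) F (i.insertNth 1 y) := by
  rw [db, db, fderiv_comp_ins i hF, fderiv_comp_ins i hF, L_single, L_single]

/-! ### Euler relations -/

theorem euler {m : ℕ} {G : E m → ℂ} {z : E m} (hG : DifferentiableAt ℝ G z)
    (h : ∀ c : ℂ, c ≠ 0 → G (c • z) = G z) :
    (∑ a, dz a G z * z a = 0) ∧ (∑ a, db a G z * (starRingEnd ℂ) (z a) = 0) := by
  have key : ∀ w : ℂ, fderiv ℝ G z (w • z) = 0 := by
    intro w
    have h1 : HasDerivAt (fun t : ℝ => ((1 : ℂ) + (t : ℂ) * w) • z) (w • z) 0 := by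
      have : HasDerivAt (fun t : ℝ => (1 : ℂ) + (t : ℂ) * w) w 0 := by
        simpa using ((Complex.ofRealCLM.hasDerivAt (x := (0 : ℝ))).mul_const w).const_add 1
      exact this.smul_const z
    have h3 : HasFDerivAt G (fderiv ℝ G z) (((1 : ℂ) + ((0 : ℝ) : ℂ) * w) • z) := by
      simpa using hG.hasFDerivAt
    have h2 : HasDerivAt (fun t : ℝ => G (((1 : ℂ) + (t : ℂ) * w) • z)) (fderiv ℝ G z (w • z)) 0 :=
      h3.comp_hasDerivAt (0 : ℝ) h1
    have h4 : (fun t : ℝ => G (((1 : ℂ) + (t : ℂ) * w) • z)) =ᶠ[𝓝 0] fun _ => G z := by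
      have : ∀ᶠ t : ℝ in 𝓝 0, (1 : ℂ) + (t : ℂ) * w ≠ 0 :=
        ContinuousAt.eventually_ne (by fun_prop) (by simp)
      filter_upwards [this] with t ht using h _ ht
    exact (h2.congr_of_eventuallyEq h4.symm).unique (hasDerivAt_const _ _)
  have k1 := key 1
  have k2 := key Complex.I
  rw [fderiv_eq_sum] at k1 k2
  simp only [Pi.smul_apply, smul_eq_mul, one_mul, map_mul, Complex.conj_I] at k1 k2
  set A := ∑ a, dz a G z * z a with hA
  set B := ∑ a, db a G z * (starRingEnd ℂ) (z a) with hB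
  have e1 : A + B = 0 := by rw [hA, hB, ← Finset.sum_add_distrib]; exact k1
  have e2 : Complex.I * A - Complex.I * B = 0 := by
    rw [hA, hB, Finset.mul_sum, Finset.mul_sum, ← Finset.sum_sub_distrib, ← k2]
    exact Finset.sum_congr rfl fun a _ => by ring
  have e3 : A = B := by
    have : Complex.I * (A - B) = 0 := by linear_combination e2
    exact sub_eq_zero.1 ((mul_eq_zero.1 this).resolve_left Complex.I_ne_zero)
  constructor
  · linear_combination (1 / 2 : ℂ) * e1 + (1 / 2 : ℂ) * e3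
  · linear_combination (1 / 2 : ℂ) * e1 - (1 / 2 : ℂ) * e3

theorem isOpen_ne {m : ℕ} : IsOpen ({0}ᶜ : Set (E m)) := isOpen_compl_singleton

theorem cxOn {m : ℕ} {F : E m → ℝ} (hF : SH F) : ContDiffOn ℝ ∞ (cx F) {0}ᶜ :=
  A2.ofRealOn hF.smooth

theorem cx2 {m : ℕ} {F : E m → ℝ} (hF : SH F) {z : E m} (hz : z ≠ 0) :
    ContDiffAt ℝ 2 (cx F) z := A2.two_of_open isOpen_ne (cxOn hF) hz

theorem re2 {m : ℕ} {F : E m → ℝ} (hF : SH F) {z : E m} (hz : z ≠ 0) :
    ContDiffAt ℝ 2 F z :=
  contDiffAt_infty.1 (hF.smooth.contDiffAt (isOpen_ne.mem_nhds hz)) 2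

theorem dcx {m : ℕ} {F : E m → ℝ} (hF : SH F) {z : E m} (hz : z ≠ 0) :
    DifferentiableAt ℝ (cx F) z := (cx2 hF hz).differentiableAt (by norm_num)

theorem euler1 {m : ℕ} {F : E m → ℝ} (hF : SH F) {z : E m} (hz : z ≠ 0) :
    (∑ a, dz a (cx F) z * z a = 0) ∧ (∑ a, db a (cx F) z * (starRingEnd ℂ) (z a) = 0) :=
  euler (dcx hF hz) fun c hc => by simp only [cx]; rw [hF.hom c z hc]

theorem dz_coord {m : ℕ} (a b : Fin m) (z : E m) :
    dz b (fun w : E m => (starRingEnd ℂ) (w a)) z = 0 := by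
  rw [dz_conj, db_hol (f := fun w : E m => w a) (differentiableAt_apply a z), map_zero]

/-- the second order Euler relation -/
theorem euler2 {m : ℕ} {F : E m → ℝ} (hF : SH F) {z : E m} (hz : z ≠ 0) (b : Fin m) :
    ∑ a, lev F z b a * (starRingEnd ℂ) (z a) = 0 := by
  have h1 : (fun w => ∑ a, db a (cx F) w * (starRingEnd ℂ) (w a)) =ᶠ[𝓝 z] fun _ => (0 : ℂ) := by
    filter_upwards [isOpen_ne.mem_nhds hz] with w hw
    exact (euler1 hF hw).2
  have h2 : dz b (fun w => ∑ a, db a (cx F) w * (starRingEnd ℂ) (w a)) z = 0 := by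
    rw [dz_congr h1, dz_const]
  have hd : ∀ a, DifferentiableAt ℝ (db a (cx F)) z := fun a => A2.diff_db (cx2 hF hz) a
  have hc : ∀ a : Fin m, DifferentiableAt ℝ (fun w : E m => (starRingEnd ℂ) (w a)) z := fun a =>
    Complex.conjCLE.differentiableAt.comp z (differentiableAt_apply a z)
  rw [dz_sum (f := fun (a : Fin m) (w : E m) => db a (cx F) w * (starRingEnd ℂ) (w a)) _
    (fun a _ => (hd a).mul (hc a))] at h2
  rw [← h2]
  refine Finset.sum_congr rfl fun a _ => ?_
  rw [dz_mul (hd a) (hc a), dz_coord, mul_zero, add_zero]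
  rfl

/-! ### charts -/

theorem lev_ins {F : E (n + 1) → ℝ} (hF : SH F) (i : Fin (n + 1)) (y : E n) (j k : Fin n) :
    lev (fun y : E n => F (i.insertNth 1 y)) y j k =
      lev F (i.insertNth 1 y) (i.succAbove j) (i.succAbove k) := by
  have h1 : db k (fun y : E n => ((F (i.insertNth 1 y) : ℝ) : ℂ)) =
      fun y => db (i.succAbove k) (cx F) (i.insertNth 1 y) := by
    funext y
    exact db_ins (F := cx F) i (dcx hF (CP.ins_ne i y)) k
  show dz j (db k (fun y : E n => ((F (i.insertNth 1 y) : ℝ) : ℂ))) y = _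
  rw [h1]
  exact dz_ins i (A2.diff_db (cx2 hF (CP.ins_ne i y)) _) j

theorem sum_conj_rel {m : ℕ} {F : E m → ℝ} (hF : SH F) {z : E m} (hz : z ≠ 0) (b : Fin m) :
    ∑ a, lev F z a b * z a = 0 := by
  have h := congrArg (starRingEnd ℂ) (euler2 hF hz b)
  rw [map_sum, map_zero] at h
  rw [← h]
  refine Finset.sum_congr rfl fun a _ => ?_
  rw [map_mul, Complex.conj_conj]
  congr 1
  exact ((lev_herm (re2 hF hz)).apply a b).symm

/-- the trace of the Hessian in terms of the chart -/
theorem trace_ins {F : E (n + 1) → ℝ} (hF : SH F) (i : Fin (n + 1)) (y : E n) :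
    ∑ a, lev F (i.insertNth 1 y) a a =
      ∑ j, ∑ k, ((if k = j then 1 else 0) + (starRingEnd ℂ) (y k) * y j) *
        lev F (i.insertNth 1 y) (i.succAbove j) (i.succAbove k) := by
  have hz := CP.ins_ne i y
  set z : E (n + 1) := i.insertNth 1 y with hzd
  have zi : z i = 1 := by rw [hzd]; simp
  have zs : ∀ j, z (i.succAbove j) = y j := fun j => by rw [hzd]; simp
  have r1 := euler2 hF hz i
  have r2 : ∀ b, lev F z i b = -∑ j, lev F z (i.succAbove j) b * y j := by
    intro b
    have := sum_conj_rel hF hz b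
    rw [Fin.sum_univ_succAbove _ i, zi, mul_one] at this
    simp only [zs] at this
    linear_combination this
  rw [Fin.sum_univ_succAbove _ i, zi, map_one, mul_one] at r1
  simp only [zs] at r1
  rw [Fin.sum_univ_succAbove _ i]
  have e1 : lev F z i i = ∑ j, ∑ k, ((starRingEnd ℂ) (y k) * y j) *
      lev F z (i.succAbove j) (i.succAbove k) := by
    have : lev F z i i = -∑ k, lev F z i (i.succAbove k) * (starRingEnd ℂ) (y k) := by
      linear_combination r1
    rw [this, Finset.sum_comm, ← Finset.sum_neg_distrib]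
    refine Finset.sum_congr rfl fun k _ => ?_
    rw [r2, neg_mul, neg_neg, Finset.sum_mul]
    exact Finset.sum_congr rfl fun j _ => by ring
  have e2 : ∑ j, lev F z (i.succAbove j) (i.succAbove j) = ∑ j, ∑ k, (if k = j then 1 else 0) *
      lev F z (i.succAbove j) (i.succAbove k) := by
    refine Finset.sum_congr rfl fun j _ => ?_
    simp
  rw [e1, e2, ← Finset.sum_add_distrib]
  refine Finset.sum_congr rfl fun j _ => ?_
  rw [← Finset.sum_add_distrib]
  exact Finset.sum_congr rfl fun k _ => by ring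

/-- the gradient in terms of the chart -/
theorem grad_ins {F H : E (n + 1) → ℝ} (hF : SH F) (hH : SH H) (i : Fin (n + 1)) (y : E n) :
    ∑ a, dz a (cx F) (i.insertNth 1 y) * db a (cx H) (i.insertNth 1 y) =
      ∑ j, ∑ k, ((if k = j then 1 else 0) + (starRingEnd ℂ) (y k) * y j) *
        dz (i.succAbove j) (cx F) (i.insertNth 1 y) *
          db (i.succAbove k) (cx H) (i.insertNth 1 y) := by
  have hz := CP.ins_ne i y
  set z : E (n + 1) := i.insertNth 1 y with hzd
  have zi : z i = 1 := by rw [hzd]; simp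
  have zs : ∀ j, z (i.succAbove j) = y j := fun j => by rw [hzd]; simp
  have r1 := (euler1 hF hz).1
  have r2 := (euler1 hH hz).2
  rw [Fin.sum_univ_succAbove _ i, zi, mul_one] at r1
  rw [Fin.sum_univ_succAbove _ i, zi, map_one, mul_one] at r2
  simp only [zs] at r1 r2
  rw [Fin.sum_univ_succAbove _ i]
  have e1 : dz i (cx F) z * db i (cx H) z = ∑ j, ∑ k, ((starRingEnd ℂ) (y k) * y j) *
      dz (i.succAbove j) (cx F) z * db (i.succAbove k) (cx H) z := by
    have f1 : dz i (cx F) z = -∑ j, dz (i.succAbove j) (cx F) z * y j := by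
      linear_combination r1
    have f2 : db i (cx H) z = -∑ k, db (i.succAbove k) (cx H) z * (starRingEnd ℂ) (y k) := by
      linear_combination r2
    rw [f1, f2, neg_mul_neg, Finset.sum_mul_sum]
    exact Finset.sum_congr rfl fun j _ => Finset.sum_congr rfl fun k _ => by ring
  have e2 : ∑ j, dz (i.succAbove j) (cx F) z * db (i.succAbove j) (cx H) z =
      ∑ j, ∑ k, (if k = j then 1 else 0) *
      dz (i.succAbove j) (cx F) z * db (i.succAbove k) (cx H) z := by
    refine Finset.sum_congr rfl fun j _ => ?_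
    simp
  rw [e1, e2, ← Finset.sum_add_distrib]
  refine Finset.sum_congr rfl fun j _ => ?_
  rw [← Finset.sum_add_distrib]
  exact Finset.sum_congr rfl fun k _ => by ring

/-! ### scaling -/

theorem fderiv_smul {m : ℕ} (c : ℂ) (z v : E m) :
    fderiv ℂ (fun w : E m => c • w) z v = c • v := by
  have h : HasFDerivAt (fun w : E m => c • w) (c • ContinuousLinearMap.id ℂ (E m)) z :=
    (hasFDerivAt_id z).const_smul c
  rw [h.fderiv]
  rfl

theorem diff_smul {m : ℕ} (c : ℂ) (z : E m) :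
    DifferentiableAt ℂ (fun w : E m => c • w) z := differentiableAt_id.const_smul c

theorem dz_scale {m : ℕ} {F : E m → ℝ} (hF : SH F) {z : E m} (hz : z ≠ 0) {c : ℂ} (hc : c ≠ 0)
    (a : Fin m) : dz a (cx F) z = dz a (cx F) (c • z) * c := by
  have h := dz_comp (τ := fun w : E m => c • w) (f := cx F) (y := z) (diff_smul c z)
    (dcx hF (smul_ne_zero hc hz)) a
  have e : (fun w : E m => cx F (c • w)) = cx F := by
    funext w
    exact congrArg (fun t : ℝ => (t : ℂ)) (hF.hom c w hc)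
  rw [e] at h
  rw [h, Finset.sum_eq_single a]
  · rw [fderiv_smul]; simp
  · intro b _ hb
    rw [fderiv_smul]; simp [Pi.single_eq_of_ne hb]
  · intro h; exact absurd (Finset.mem_univ _) h

theorem db_scale {m : ℕ} {F : E m → ℝ} (hF : SH F) {z : E m} (hz : z ≠ 0) {c : ℂ} (hc : c ≠ 0)
    (a : Fin m) : db a (cx F) z = db a (cx F) (c • z) * (starRingEnd ℂ) c := by
  have h := db_comp (τ := fun w : E m => c • w) (f := cx F) (y := z) (diff_smul c z)
    (dcx hF (smul_ne_zero hc hz)) a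
  have e : (fun w : E m => cx F (c • w)) = cx F := by
    funext w
    exact congrArg (fun t : ℝ => (t : ℂ)) (hF.hom c w hc)
  rw [e] at h
  rw [h, Finset.sum_eq_single a]
  · rw [fderiv_smul]; simp
  · intro b _ hb
    rw [fderiv_smul]; simp [Pi.single_eq_of_ne hb]
  · intro h; exact absurd (Finset.mem_univ _) h

theorem lev_scale {m : ℕ} {F : E m → ℝ} (hF : SH F) {z : E m} (hz : z ≠ 0) {c : ℂ} (hc : c ≠ 0)
    (a b : Fin m) : lev F z a b = c * lev F (c • z) a b * (starRingEnd ℂ) c := by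
  have han : AnalyticAt ℂ (fun w : E m => c • w) z := by fun_prop
  have h := lev_comp (τ := fun w : E m => c • w) (ψ := F) (y := z) han
    (re2 hF (smul_ne_zero hc hz)) a b
  have e : (fun w : E m => F (c • w)) = F := by
    funext w
    exact hF.hom c w hc
  rw [e] at h
  rw [h, Finset.sum_eq_single a]
  · rw [Finset.sum_eq_single b]
    · simp only [fderiv_smul]; simp
    · intro l _ hl
      simp only [fderiv_smul]; simp [Pi.single_eq_of_ne hl]
    · intro h; exact absurd (Finset.mem_univ _) h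
  · intro l _ hl
    refine Finset.sum_eq_zero fun k _ => ?_
    simp only [fderiv_smul]; simp [Pi.single_eq_of_ne hl]
  · intro h; exact absurd (Finset.mem_univ _) h

theorem rr_scale {m : ℕ} (c : ℂ) (z : E m) : rr (c • z) = ‖c‖ ^ 2 * rr z := by
  unfold rr
  rw [Finset.mul_sum]
  exact Finset.sum_congr rfl fun j _ => by rw [Pi.smul_apply, smul_eq_mul, norm_mul, mul_pow]

theorem LH_scale {m : ℕ} {F : E m → ℝ} (hF : SH F) {z : E m} (hz : z ≠ 0) {c : ℂ} (hc : c ≠ 0) :
    LH F (c • z) = LH F z := by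
  unfold LH
  have h : ∀ a, (lev F z a a).re = ‖c‖ ^ 2 * (lev F (c • z) a a).re := by
    intro a
    rw [lev_scale hF hz hc]
    have : c * lev F (c • z) a a * (starRingEnd ℂ) c =
        ((‖c‖ ^ 2 : ℝ) : ℂ) * lev F (c • z) a a := by
      rw [← Complex.normSq_eq_norm_sq, ← Complex.mul_conj]; ring
    rw [this, Complex.re_ofReal_mul]
  simp only [h]
  rw [← Finset.mul_sum, rr_scale]
  ring

theorem GH_scale {m : ℕ} {F H : E m → ℝ} (hF : SH F) (hH : SH H) {z : E m} (hz : z ≠ 0) {c : ℂ}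
    (hc : c ≠ 0) : GH F H (c • z) = GH F H z := by
  unfold GH
  have h : ∑ a, dz a (cx F) z * db a (cx H) z = ((‖c‖ ^ 2 : ℝ) : ℂ) *
      ∑ a, dz a (cx F) (c • z) * db a (cx H) (c • z) := by
    rw [Finset.mul_sum]
    refine Finset.sum_congr rfl fun a _ => ?_
    rw [dz_scale hF hz hc, db_scale hH hz hc, ← Complex.normSq_eq_norm_sq, ← Complex.mul_conj]
    ring
  rw [h, Complex.re_ofReal_mul, rr_scale]
  ring

/-- `GH` is symmetric -/
theorem GH_symm' {m : ℕ} (F H : E m → ℝ) (z : E m) : GH F H z = GH H F z := by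
  unfold GH
  congr 1
  have h : ∑ a, dz a (cx H) z * db a (cx F) z =
      (starRingEnd ℂ) (∑ a, dz a (cx F) z * db a (cx H) z) := by
    rw [map_sum]
    refine Finset.sum_congr rfl fun a _ => ?_
    rw [map_mul, ← A2.dz_real F z a, ← A2.dz_real H z a, Complex.conj_conj]
    ring
  rw [h, Complex.conj_re]

theorem rr_ins (i : Fin (n + 1)) (y : E n) :
    rr (i.insertNth 1 y : E (n + 1)) = 1 + ∑ l, ‖y l‖ ^ 2 := by
  unfold rr
  rw [Fin.sum_univ_succAbove _ i]
  simp

/-- the chart at a point -/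
theorem chart_at (z : E (n + 1)) (hz : z ≠ 0) : ∃ (i : Fin (n + 1)) (y : E n),
    chartAt (E n) (CP.mk z hz) = CP.chart i ∧ CP.chart i (CP.mk z hz) = y ∧
      z = z i • (i.insertNth 1 y : E (n + 1)) ∧ z i ≠ 0 := by
  obtain ⟨i, hi⟩ := chart_mem_atlas (E n) (CP.mk z hz)
  have hs := mem_chart_source (E n) (CP.mk z hz)
  rw [← hi, CP.mem_source_chart] at hs
  refine ⟨i, _, hi.symm, rfl, ?_, hs⟩
  funext a
  refine Fin.succAboveCases i ?_ (fun l => ?_) a
  · simp
  · simp only [Pi.smul_apply, smul_eq_mul, Fin.insertNth_apply_succAbove]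
    rw [CP.chart_mk i z hz hs]
    field_simp

theorem u_symm (u : CP n → ℝ) (i : Fin (n + 1)) (y : E n) :
    u ((CP.chart i).symm y) = lft u (i.insertNth 1 y) := by
  rw [CP.chart_symm, lft_mk]

theorem inv_wFS (e : Ch n (CP n)) (y : E n) (j k : Fin n) :
    (lev (wFS n e) y)⁻¹ k j = ((n : ℂ) + 1)⁻¹ *
      (((1 + ∑ l, ‖y l‖ ^ 2 : ℝ) : ℂ) * ((if k = j then 1 else 0) +
        (starRingEnd ℂ) (y k) * y j)) := by
  have hn : ((n : ℂ) + 1) ≠ 0 := by exact_mod_cast Nat.succ_ne_zero n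
  have hc : (((n : ℝ) + 1 : ℝ) : ℂ) ≠ 0 := by push_cast; exact hn
  have hdet := isUnit_iff_ne_zero.2 (lev_fs_posDef (n := n) y).det_pos.ne'
  have h5 : (lev (wFS n e) y)⁻¹ = (((n : ℝ) + 1 : ℝ) : ℂ)⁻¹ •
      (lev (fun z : E n => Real.log (1 + ∑ j, ‖z j‖ ^ 2)) y)⁻¹ := by
    rw [lev_wFS, hFS]
    apply Matrix.inv_eq_right_inv
    rw [Matrix.smul_mul, Matrix.mul_smul, smul_smul, mul_inv_cancel₀ hc, one_smul,
      Matrix.mul_nonsing_inv _ hdet]
  rw [h5, Matrix.smul_apply, lev_fs_inv, smul_eq_mul]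
  push_cast
  rfl

end P14aux

open P14aux

theorem sm_iff (u : CP n → ℝ) : Sm n (fun x => ((u x : ℝ) : ℂ)) ↔ SH (lft u) := by
  constructor
  · intro h
    have hU : ∀ i : Fin (n + 1), ContDiff ℝ ∞ (fun y : E n => lft u (i.insertNth 1 y)) := by
      intro i
      have h1 := h (CP.chart i) (mem_range_self i)
      rw [CP.chart_target, contDiffOn_univ] at h1
      have h2 := Complex.reCLM.contDiff.comp h1
      have e : (Complex.reCLM ∘ fun y : E n => ((u ((CP.chart i).symm y) : ℝ) : ℂ)) =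
          fun y : E n => lft u (i.insertNth 1 y) := by
        funext y
        simp only [Function.comp_apply, Complex.reCLM_apply, Complex.ofReal_re]
        exact u_symm u i y
      rwa [e] at h2
    have hom : ∀ (c : ℂ) (z : E (n + 1)), c ≠ 0 → lft u (c • z) = lft u z := by
      intro c z hc
      by_cases hz : z = 0
      · rw [hz, smul_zero]
      · rw [lft_mk u z hz, lft_mk u (c • z) (smul_ne_zero hc hz)]
        congr 1
        rw [CP.mk_eq_iff]
        exact ⟨c, hc, rfl⟩
    refine ⟨?_, hom⟩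
    intro z hz
    obtain ⟨i, hi⟩ := Function.ne_iff.1 (show z ≠ 0 from hz)
    have hi' : z i ≠ 0 := hi
    have hopen : IsOpen {w : E (n + 1) | w i ≠ 0} := isOpen_ne_fun (continuous_apply i)
      continuous_const
    have hπ : ContDiffAt ℝ ∞ (fun (w : E (n + 1)) (j : Fin n) => w (i.succAbove j) / w i) z := by
      rw [contDiffAt_pi]
      intro j
      simp only [div_eq_mul_inv]
      have c1 : ContDiffAt ℝ ∞ (fun w : E (n + 1) => w (i.succAbove j)) z :=
        (contDiff_apply ℝ ℂ (i.succAbove j)).contDiffAt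
      have c2 : ContDiffAt ℝ ∞ (fun w : E (n + 1) => w i) z := (contDiff_apply ℝ ℂ i).contDiffAt
      exact c1.mul (c2.inv hi')
    have h1 : ContDiffAt ℝ ∞ (fun w : E (n + 1) => lft u (i.insertNth 1
        (fun j : Fin n => w (i.succAbove j) / w i))) z := (hU i).contDiffAt.comp z hπ
    refine (h1.congr_of_eventuallyEq ?_).contDiffWithinAt
    filter_upwards [hopen.mem_nhds hi'] with w hw
    have hw' : w i ≠ 0 := hw
    have e : w = w i • (i.insertNth 1 (fun j : Fin n => w (i.succAbove j) / w i) : E (n + 1)) := by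
      funext a
      refine Fin.succAboveCases i ?_ (fun l => ?_) a
      · simp
      · simp only [Pi.smul_apply, smul_eq_mul, Fin.insertNth_apply_succAbove]
        field_simp
    conv_lhs => rw [e]
    exact hom _ _ hw'
  · rintro h _ ⟨i, rfl⟩
    have e : (fun y : E n => ((u ((CP.chart i).symm y) : ℝ) : ℂ)) =
        fun y : E n => (cx (lft u)) (i.insertNth 1 y) := by
      funext y
      exact congrArg _ (u_symm u i y)
    rw [e]
    refine (cxOn h).comp (CP.contDiff_ins i).contDiffOn ?_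
    intro y _
    exact CP.ins_ne i y

theorem lap_wFS {u : CP n → ℝ} (hu : SH (lft u)) (z : E (n + 1)) (hz : z ≠ 0) :
    lap (wFS n) u (CP.mk z hz) = LH (lft u) z := by
  obtain ⟨i, y, h1, h2, h3, h4⟩ := chart_at z hz
  have hn : ((n : ℂ) + 1) ≠ 0 := by exact_mod_cast Nat.succ_ne_zero n
  have e1 : LH (lft u) z = LH (lft u) (i.insertNth 1 y) := by
    conv_lhs => rw [h3]
    exact LH_scale hu (CP.ins_ne i y) h4
  rw [e1, lap, h1, h2]
  have e2 : (fun w => u ((CP.chart i).symm w)) = fun y : E n => lft u (i.insertNth 1 y) := by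
    funext w
    exact u_symm u i w
  rw [e2]
  simp only [inv_wFS, lev_ins hu]
  unfold LH
  rw [rr_ins, ← Complex.re_sum, trace_ins hu]
  have e4 : ∑ j, ∑ k, ((n : ℂ) + 1)⁻¹ * (((1 + ∑ l, ‖y l‖ ^ 2 : ℝ) : ℂ) *
      ((if k = j then 1 else 0) + (starRingEnd ℂ) (y k) * y j)) *
        lev (lft u) (i.insertNth 1 y) (i.succAbove j) (i.succAbove k) =
      (((1 + ∑ l, ‖y l‖ ^ 2) / ((n + 1 : ℕ) : ℝ) : ℝ) : ℂ) *
        ∑ j, ∑ k, ((if k = j then 1 else 0) + (starRingEnd ℂ) (y k) * y j) *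
        lev (lft u) (i.insertNth 1 y) (i.succAbove j) (i.succAbove k) := by
    rw [Finset.mul_sum]
    refine Finset.sum_congr rfl fun j _ => ?_
    rw [Finset.mul_sum]
    refine Finset.sum_congr rfl fun k _ => ?_
    push_cast
    field_simp
  rw [e4, Complex.re_ofReal_mul]

theorem gr2_wFS {u v : CP n → ℝ} (hu : SH (lft u)) (hv : SH (lft v)) (z : E (n + 1))
    (hz : z ≠ 0) : gr2 (wFS n) u v (CP.mk z hz) = GH (lft u) (lft v) z := by
  obtain ⟨i, y, h1, h2, h3, h4⟩ := chart_at z hz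
  have hn : ((n : ℂ) + 1) ≠ 0 := by exact_mod_cast Nat.succ_ne_zero n
  have e1 : GH (lft u) (lft v) z = GH (lft v) (lft u) (i.insertNth 1 y) := by
    rw [GH_symm']
    conv_lhs => rw [h3]
    exact GH_scale hv hu (CP.ins_ne i y) h4
  rw [e1, gr2, h1, h2]
  have e2 : ∀ u : CP n → ℝ, (fun w => ((u ((CP.chart i).symm w) : ℝ) : ℂ)) =
      fun y : E n => (cx (lft u)) (i.insertNth 1 y) := by
    intro u
    funext w
    exact congrArg _ (u_symm u i w)
  rw [e2 u, e2 v]
  have e3 : ∀ j, (starRingEnd ℂ) (db j (fun y : E n => (cx (lft v)) (i.insertNth 1 y)) y) =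
      dz (i.succAbove j) (cx (lft v)) (i.insertNth 1 y) := by
    intro j
    rw [db_ins i (dcx hv (CP.ins_ne i y))]
    exact A2.dz_real (lft v) _ _
  unfold cn dbv
  simp only [inv_wFS, e3, db_ins i (dcx hu (CP.ins_ne i y))]
  unfold GH
  rw [rr_ins, grad_ins hv hu]
  have e4 : ∑ k, ∑ j, db (i.succAbove k) (cx (lft u)) (i.insertNth 1 y) *
      (((n : ℂ) + 1)⁻¹ * (((1 + ∑ l, ‖y l‖ ^ 2 : ℝ) : ℂ) *
      ((if k = j then 1 else 0) + (starRingEnd ℂ) (y k) * y j))) *
        dz (i.succAbove j) (cx (lft v)) (i.insertNth 1 y) =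
      (((1 + ∑ l, ‖y l‖ ^ 2) / ((n + 1 : ℕ) : ℝ) : ℝ) : ℂ) *
        ∑ j, ∑ k, ((if k = j then 1 else 0) + (starRingEnd ℂ) (y k) * y j) *
        dz (i.succAbove j) (cx (lft v)) (i.insertNth 1 y) *
          db (i.succAbove k) (cx (lft u)) (i.insertNth 1 y) := by
    rw [Finset.sum_comm, Finset.mul_sum]
    refine Finset.sum_congr rfl fun j _ => ?_
    rw [Finset.mul_sum]
    refine Finset.sum_congr rfl fun k _ => ?_
    push_cast
    field_simp
  rw [e4, Complex.re_ofReal_mul]

theorem grad2_hFS {u : CP n → ℝ} (hu : SH (lft u)) (z : E (n + 1)) (hz : z ≠ 0) :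
    grad2 (hFS n) u (CP.mk z hz) = 4 * (n + 1) * GH (lft u) (lft u) z := by
  obtain ⟨i, y, h1, h2, h3, h4⟩ := chart_at z hz
  have hn : ((n : ℝ) + 1) ≠ 0 := by exact_mod_cast Nat.succ_ne_zero n
  have e1 : GH (lft u) (lft u) z = GH (lft u) (lft u) (i.insertNth 1 y) := by
    conv_lhs => rw [h3]
    exact GH_scale hu hu (CP.ins_ne i y) h4
  rw [e1, grad2, h1, h2]
  have e2 : (fun w => ((u ((CP.chart i).symm w) : ℝ) : ℂ)) =
      fun y : E n => (cx (lft u)) (i.insertNth 1 y) := by
    funext w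
    exact congrArg _ (u_symm u i w)
  rw [e2]
  simp only [hFS, lev_fs_inv, dz_ins i (dcx hu (CP.ins_ne i y)), db_ins i (dcx hu (CP.ins_ne i y))]
  unfold GH
  rw [rr_ins, grad_ins hu hu]
  have e4 : ∑ j, ∑ k, (((1 + ∑ l, ‖y l‖ ^ 2 : ℝ) : ℂ) *
      ((if k = j then 1 else 0) + (starRingEnd ℂ) (y k) * y j)) *
        dz (i.succAbove j) (cx (lft u)) (i.insertNth 1 y) *
          db (i.succAbove k) (cx (lft u)) (i.insertNth 1 y) =
      ((1 + ∑ l, ‖y l‖ ^ 2 : ℝ) : ℂ) *
        ∑ j, ∑ k, ((if k = j then 1 else 0) + (starRingEnd ℂ) (y k) * y j) *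
        dz (i.succAbove j) (cx (lft u)) (i.insertNth 1 y) *
          db (i.succAbove k) (cx (lft u)) (i.insertNth 1 y) := by
    rw [Finset.mul_sum]
    refine Finset.sum_congr rfl fun j _ => ?_
    rw [Finset.mul_sum]
    refine Finset.sum_congr rfl fun k _ => ?_
    ring
  rw [e4, Complex.re_ofReal_mul]
  push_cast
  field_simp

end Pool.Agent.helper31.NU
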